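import Pool.Agent.W533.K.Defs
import Pool.Agent.Helper799.UnionK.Limit

set_option autoImplicit false

/-!
# Project UK: passing from finite spaces to arbitrary ones
-/

namespace Pool.Agent.W486.UK

open Pool.Agent.W533.K

universe u

theorem ell_mono {m n : ℕ} (h : m ≤ n) : ell m ≤ ell n := by
  unfold ell
  have h1 : (0 : ℝ) < 1 + (m : ℝ) := by positivity
  have h2 : (1 : ℝ) + (m : ℝ) ≤ 1 + (n : ℝ) := by
    have : (m : ℝ) ≤ n := by exact_mod_cast h
    linarith
  have := Real.logb_le_logb_of_le (b := 2) (by norm_num) h1 h2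
  linarith

theorem one_le_ell (n : ℕ) : 1 ≤ ell n := by
  unfold ell
  have h1 : (1 : ℝ) ≤ 1 + (n : ℝ) := by
    have : (0 : ℝ) ≤ n := by positivity
    linarith
  have := Real.logb_nonneg (b := 2) (by norm_num) h1
  linarith

theorem cpt (h : FinEmb.{u}) : Cpt.{u} := by
  classical
  obtain ⟨C, hC, hfin⟩ := h
  refine ⟨√C, Real.sqrt_pos.2 hC, ?_⟩
  intro k hk X _ A D hD1 hD2 hcov hp
  have hell : 1 ≤ ell k := one_le_ell k
  obtain ⟨H, i1, i2, i3, Φ, hΦ⟩ := H799U.limit_embedding (X := X) (fun x y => dist x y)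
      (C * ell k ^ 7) (by
    intro T
    have hlab : ∀ x : {x // x ∈ T}, ∃ i, x.1 ∈ A i := by
      intro x
      have hx : x.1 ∈ ⋃ i, A i := by rw [hcov]; trivial
      exact Set.mem_iUnion.1 hx
    choose c0 hc0 using hlab
    have : Fintype (Set.range c0) := Fintype.ofFinite _
    have hsurj : Function.Surjective (fun x => (⟨c0 x, x, rfl⟩ : Set.range c0)) := by
      rintro ⟨i, x, hx⟩
      exact ⟨x, Subtype.ext hx⟩
    have hcard : Fintype.card (Set.range c0) ≤ k := by
      have := Fintype.card_le_of_injective (fun i : Set.range c0 => i.1)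
        Subtype.val_injective
      simpa using this
    have hem := ell_mono hcard
    have he1 := one_le_ell (Fintype.card (Set.range c0))
    have hD3 : D ≤ 1 + 1 / (16 * ell (Fintype.card (Set.range c0))) := by
      refine hD2.trans ?_
      have : 1 / (16 * ell k) ≤ 1 / (16 * ell (Fintype.card (Set.range c0))) := by
        apply one_div_le_one_div_of_le
        · linarith
        · linarith
      linarith
    obtain ⟨κ, hκ, Ψ, hΨ⟩ := hfin {x // x ∈ T} inferInstance inferInstance (Set.range c0)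
      inferInstance (fun x => (⟨c0 x, x, rfl⟩ : Set.range c0)) D hsurj hD1 hD3 (by
        intro i
        obtain ⟨m, f, hf⟩ := hp i.1 T
        refine ⟨m, fun x => f x.1, ?_⟩
        intro x hx y hy
        have hx1 : c0 x = i.1 := congrArg Subtype.val hx
        have hy1 : c0 y = i.1 := congrArg Subtype.val hy
        have hxA : x.1 ∈ A i.1 := hx1 ▸ hc0 x
        have hyA : y.1 ∈ A i.1 := hy1 ▸ hc0 y
        exact hf x.1 ⟨hxA, x.2⟩ y.1 ⟨hyA, y.2⟩)
    refine ⟨κ, hκ, fun x => if h : x ∈ T then Ψ ⟨x, h⟩ else 0, ?_⟩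
    intro x hx y hy
    simp only [dif_pos hx, dif_pos hy]
    have h1 := hΨ ⟨x, hx⟩ ⟨y, hy⟩
    refine ⟨h1.1, h1.2.trans ?_⟩
    have hdd : dist (⟨x, hx⟩ : {x // x ∈ T}) ⟨y, hy⟩ = dist x y := rfl
    rw [hdd]
    apply mul_le_mul_of_nonneg_right _ (sq_nonneg _)
    apply mul_le_mul_of_nonneg_left _ hC.le
    exact pow_le_pow_left₀ (by linarith) hem 7)
  refine ⟨H, i1, i2, i3, Φ, fun x y => ?_⟩
  obtain ⟨h1, h2⟩ := hΦ x y
  constructor
  · exact (abs_le_of_sq_le_sq' h1 (norm_nonneg _)).2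
  · have hq0 : 0 ≤ √C * ell k ^ (7 / 2 : ℝ) * dist x y := by positivity
    have e : (√C * ell k ^ (7 / 2 : ℝ) * dist x y) ^ 2 = C * ell k ^ 7 * dist x y ^ 2 := by
      rw [mul_pow, mul_pow, Real.sq_sqrt hC.le, ← Real.rpow_natCast (ell k ^ (7 / 2 : ℝ)) 2,
        ← Real.rpow_mul (by linarith), ← Real.rpow_natCast (ell k) 7]
      norm_num
    have h5 : ‖Φ x - Φ y‖ ^ 2 ≤ (√C * ell k ^ (7 / 2 : ℝ) * dist x y) ^ 2 := by
      rw [e]; exact h2
    exact (abs_le_of_sq_le_sq' h5 hq0).2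

end Pool.Agent.W486.UK
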